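import Mathlib

/-!
# MP_59f694_co: cross-intersecting (skew) pairs of projective subspaces

For every field `F` and every `n`, a sequence of pairs `(U_i, V_i)` of nonzero linear subspaces of
`F^{n+1}` with `U_i ∩ V_i = 0` and `U_i ∩ V_j ≠ 0` for `i < j` has length at most `2^{n+1} - 2`.
-/

set_option autoImplicit false

open Module

namespace Pool.Agent.Results.MP_59f694_co.SkewBound

variable {F : Type*} [Field F] {E : Type*} [AddCommGroup E] [Module F E] [FiniteDimensional F E]

omit [FiniteDimensional F E] in
/-- a linearly independent family has a nonzero exterior product -/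
lemma iotaMulti_ne_zero {k : ℕ} {v : Fin k → E} (hv : LinearIndependent F v) :
    ExteriorAlgebra.ιMulti F k v ≠ 0 := by
  intro h
  have h1 := exteriorPower.ιMulti_family_linearIndependent_field (n := k) hv
  have h2 := h1.ne_zero ⟨Finset.univ, by
    rw [Set.powersetCard.mem_iff]
    simp⟩
  apply h2
  rw [Subtype.ext_iff]
  simp only [exteriorPower.ιMulti_family]
  rw [exteriorPower.ιMulti_apply_coe]
  have h3 : ∀ e : Fin k ↪o Fin k, ExteriorAlgebra.ιMulti F k (v ∘ e) = 0 := by
    intro e
    have he : (e : Fin k → Fin k) = id := by
      have : Function.Surjective e := Finite.surjective_of_injective e.injective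
      have h4 := Subsingleton.elim (RelIso.ofSurjective e this) (OrderIso.refl (Fin k))
      funext x
      exact congrArg (fun f : Fin k ≃o Fin k => f x) h4
    rw [he]
    exact h
  exact h3 _

/-- the exterior product of a basis of a subspace -/
noncomputable def w (U : Submodule F E) : ExteriorAlgebra F E :=
  ExteriorAlgebra.ιMulti F (finrank F U) (fun i => (finBasis F U i : E))

lemma w_mul_eq_zero (U V : Submodule F E) (h : U ⊓ V ≠ ⊥) : w U * w V = 0 := by
  unfold w
  rw [ExteriorAlgebra.ιMulti_mul_ιMulti]
  apply AlternatingMap.map_linearDependent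
  intro hli
  apply h
  rw [eq_bot_iff]
  intro x hx
  have hU : x ∈ Submodule.span F (Set.range (fun i => (finBasis F U i : E))) := by
    have := (finBasis F U).span_eq
    have h2 : Submodule.map U.subtype (Submodule.span F (Set.range (finBasis F U))) = U := by
      rw [this, Submodule.map_top, Submodule.range_subtype]
    rw [Submodule.map_span, ← Set.range_comp] at h2
    have h3 : x ∈ U := hx.1
    rw [← h2] at h3
    exact h3
  have hV : x ∈ Submodule.span F (Set.range (fun i => (finBasis F V i : E))) := by
    have := (finBasis F V).span_eq
    have h2 : Submodule.map V.subtype (Submodule.span F (Set.range (finBasis F V))) = V := by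
      rw [this, Submodule.map_top, Submodule.range_subtype]
    rw [Submodule.map_span, ← Set.range_comp] at h2
    have h3 : x ∈ V := hx.2
    rw [← h2] at h3
    exact h3
  have hli2 : LinearIndependent F (Sum.elim (fun i => (finBasis F U i : E))
      (fun i => (finBasis F V i : E))) := by
    have h5 := hli.comp finSumFinEquiv finSumFinEquiv.injective
    have h6 : (Sum.elim (fun i => (finBasis F U i : E)) (fun i => (finBasis F V i : E))) =
        Fin.append (fun i => (finBasis F U i : E)) (fun i => (finBasis F V i : E)) ∘
          finSumFinEquiv := by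
      funext i
      rcases i with i | i
      · simp
      · simp
    rw [h6]
    exact h5
  rw [linearIndependent_sum] at hli2
  have hd := hli2.2.2
  have := Submodule.disjoint_def.1 hd x hU hV
  rw [this]
  exact Submodule.zero_mem _

lemma w_mul_ne_zero (U V : Submodule F E) (h : U ⊓ V = ⊥) : w U * w V ≠ 0 := by
  unfold w
  rw [ExteriorAlgebra.ιMulti_mul_ιMulti]
  apply iotaMulti_ne_zero
  have hU : LinearIndependent F (fun i => (finBasis F U i : E)) :=
    (finBasis F U).linearIndependent.map' U.subtype (Submodule.ker_subtype U)
  have hV : LinearIndependent F (fun i => (finBasis F V i : E)) :=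
    (finBasis F V).linearIndependent.map' V.subtype (Submodule.ker_subtype V)
  have hsum : LinearIndependent F (Sum.elim (fun i => (finBasis F U i : E))
      (fun i => (finBasis F V i : E))) := by
    rw [linearIndependent_sum]
    refine ⟨hU, hV, ?_⟩
    have hsU : Submodule.span F (Set.range (fun i => (finBasis F U i : E))) ≤ U := by
      rw [Submodule.span_le]
      rintro _ ⟨i, rfl⟩
      exact (finBasis F U i).2
    have hsV : Submodule.span F (Set.range (fun i => (finBasis F V i : E))) ≤ V := by
      rw [Submodule.span_le]
      rintro _ ⟨i, rfl⟩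
      exact (finBasis F V i).2
    exact Disjoint.mono hsU hsV (disjoint_iff.2 h)
  have := hsum.comp finSumFinEquiv.symm finSumFinEquiv.symm.injective
  convert this using 1
  funext i
  refine Fin.addCases (fun i => ?_) (fun i => ?_) i
  · simp
  · simp

lemma finrank_exteriorAlgebra : finrank F (ExteriorAlgebra F E) = 2 ^ finrank F E := by
  rw [finrank_eq_card_basis (finBasis F E).ExteriorAlgebra, Fintype.card_finset, Fintype.card_fin]

instance : FiniteDimensional F (ExteriorAlgebra F E) :=
  Module.Finite.of_basis (finBasis F E).ExteriorAlgebra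

/-- the skew bound without the condition that the subspaces are nonzero -/
lemma skew (m : ℕ) (U V : Fin m → Submodule F E) (h1 : ∀ i, U i ⊓ V i = ⊥)
    (h2 : ∀ i j, i < j → U i ⊓ V j ≠ ⊥) : m ≤ 2 ^ finrank F E := by
  classical
  have hli : LinearIndependent F (fun i => w (U i)) := by
    rw [Fintype.linearIndependent_iff]
    intro g hg
    by_contra hne
    push Not at hne
    obtain ⟨i0, hi0⟩ := hne
    obtain ⟨i, hi, hmax⟩ := Finset.exists_max_image
      (Finset.univ.filter (fun i => g i ≠ 0)) id ⟨i0, by simp [hi0]⟩
    have hgi : g i ≠ 0 := (Finset.mem_filter.1 hi).2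
    have h3 := congrArg (fun x => x * w (V i)) hg
    simp only [zero_mul, Finset.sum_mul] at h3
    rw [Finset.sum_eq_single i] at h3
    · rw [smul_mul_assoc] at h3
      rcases smul_eq_zero.1 h3 with h4 | h4
      · exact hgi h4
      · exact w_mul_ne_zero _ _ (h1 i) h4
    · intro j _ hji
      rcases lt_or_gt_of_ne hji with h4 | h4
      · rw [smul_mul_assoc, w_mul_eq_zero _ _ (h2 j i h4), smul_zero]
      · have : g j = 0 := by
          by_contra h5
          have := hmax j (by simp [h5])
          exact absurd h4 (not_lt.2 this)
        rw [this, zero_smul, zero_mul]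
    · intro h
      exact absurd (Finset.mem_univ i) h
  have := hli.fintype_card_le_finrank
  rw [Fintype.card_fin, finrank_exteriorAlgebra] at this
  exact this

/-- **Cross-intersecting pairs of projective subspaces.** -/
theorem result (F : Type*) [Field F] (n m : ℕ) (U V : Fin m → Submodule F (Fin (n + 1) → F))
    (hU : ∀ i, U i ≠ ⊥) (hV : ∀ i, V i ≠ ⊥) (h1 : ∀ i, U i ⊓ V i = ⊥)
    (h2 : ∀ i j, i < j → U i ⊓ V j ≠ ⊥) : m ≤ 2 ^ (n + 1) - 2 := by
  let U' : Fin (m + 2) → Submodule F (Fin (n + 1) → F) := Fin.cons ⊤ (Fin.snoc U ⊥)
  let V' : Fin (m + 2) → Submodule F (Fin (n + 1) → F) := Fin.cons ⊥ (Fin.snoc V ⊤)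
  have htop : (⊤ : Submodule F (Fin (n + 1) → F)) ≠ ⊥ := top_ne_bot
  have key : m + 2 ≤ 2 ^ finrank F (Fin (n + 1) → F) := by
    apply skew (m + 2) U' V'
    · intro i
      refine Fin.cases ?_ (fun i => ?_) i
      · simp [U', V']
      · refine Fin.lastCases ?_ (fun i => ?_) i
        · simp [U', V']
        · simp [U', V', h1 i]
    · intro i j
      refine Fin.cases ?_ (fun i => ?_) i
      · refine Fin.cases ?_ (fun j => ?_) j
        · intro h
          exact absurd h (lt_irrefl _)
        · intro _
          refine Fin.lastCases ?_ (fun j => ?_) j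
          · simp [U', V']
          · simp [U', V', hV j]
      · refine Fin.cases ?_ (fun j => ?_) j
        · intro h
          exact absurd h (not_lt.2 (Fin.zero_le _))
        · intro h
          rw [Fin.succ_lt_succ_iff] at h
          revert h
          refine Fin.lastCases ?_ (fun i => ?_) i
          · intro h
            exact absurd h (not_lt.2 (Fin.le_last _))
          · refine Fin.lastCases ?_ (fun j => ?_) j
            · intro _
              simp [U', V', hU i]
            · intro h
              have h' : i < j := by simpa using h
              simpa [U', V'] using h2 i j h'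
  rw [finrank_fin_fun] at key
  omega

end Pool.Agent.Results.MP_59f694_co.SkewBound
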